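import Mathlib
import Pool.Agent.J4H39.SM.Stm
import Pool.Agent.J4H49.SC.Nc
import Pool.Agent.J4H2.SC.Hit

set_option autoImplicit false

/-! Job SUP of project SM: the upper bound for the probability that all walkers but one are at the same position. -/

namespace Pool.Agent.J4H45.SM

open Finset Filter Real
open Pool.Agent.J4H39 (iw cw id1 U U_erf Erf Erf_mono iw_mono iw_const cw_mem U_nonneg)
open Pool.Agent.J4H39.SC (S_HIT)
open Pool.Agent.J4H39.SM (Same S_ERF S_SUP)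
open Pool.Agent.J4H49.SC (cw_mono_ord cw_lin cw_const t_ONE id1_true id1_false)
open Pool.Agent.J4H2.SC (t_HIT)

theorem iw_add' {K : ℕ} (F G : (Fin K → ℤ) → ℝ) (n : ℕ) : ∀ z, iw (fun z => F z + G z) n z = iw F n z + iw G n z := by
  induction n with
  | zero => intro z; rfl
  | succ n ih =>
    intro z
    simp only [iw, ih]
    rw [sum_add_distrib, add_div]

/-- the walkers except the first -/
theorem iw_proj {k : ℕ} (G : (Fin k → ℤ) → ℝ) (s : ℕ) : ∀ z : Fin (k + 1) → ℤ,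
    iw (fun z : Fin (k + 1) → ℤ => G (fun i => z i.succ)) s z = iw G s (fun i => z i.succ) := by
  induction s with
  | zero => intro z; rfl
  | succ n ih =>
    intro z
    simp only [iw, ih]
    rw [← (Fin.consEquiv (fun _ : Fin (k + 1) => Fin 2)).sum_comp, Fintype.sum_prod_type]
    simp only [Fin.consEquiv, Equiv.coe_fn_mk, Fin.cons_succ, sum_const, card_univ, Fintype.card_fin, nsmul_eq_mul]
    rw [pow_succ]
    field_simp
    push_cast
    ring

/-- two walkers far apart seldom meet -/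
theorem two_far (hE : S_ERF) {K n : ℕ} {δ c : ℝ} (hn : 1 ≤ n)
    (hU : ∀ d : ℕ, |U (2 * n) d - Erf (d / √ (2 * (2 * n : ℕ)))| ≤ δ) (z : Fin K → ℤ) (i j : Fin K) (hij : z i ≤ z j)
    (hc : c * n ≤ ((z j : ℝ) - z i) ^ 2) (G : (Fin K → ℤ) → ℝ) (hG : ∀ y, G y ≤ id1 (y i = y j)) :
    cw G n z ≤ Real.exp (-c) + δ := by
  have h1 : cw G n z ≤ 1 - U (2 * n) (2 * (z j - z i)) := by
    have a1 : cw G n z ≤ cw (fun y => 1 * 1 + (-1) * id1 (y i ≠ y j)) n z := by
      apply cw_mono_ord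
      intro y _
      refine (hG y).trans (le_of_eq ?_)
      by_cases h : y i = y j
      · rw [id1_true h, id1_false (not_not.2 h)]; norm_num
      · rw [id1_false h, id1_true h]; norm_num
    have a2 := cw_lin (K := K) (fun _ => 1) (fun y => id1 (y i ≠ y j)) 1 (-1) n z
    rw [a2, cw_const, t_ONE K n z i j] at a1
    linarith
  obtain ⟨D, hD⟩ := Int.eq_ofNat_of_zero_le (sub_nonneg.2 hij)
  have hDr : (z j : ℝ) - z i = D := by exact_mod_cast hD
  have h2 := hU (2 * D)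
  have e1 : ((2 * D : ℕ) : ℤ) = 2 * (z j - z i) := by rw [hD]; push_cast; ring
  rw [e1] at h2
  have hn' : (0 : ℝ) < n := by exact_mod_cast hn
  have hsn : 0 < √ (n : ℝ) := Real.sqrt_pos.2 hn'
  have e2 : ((2 * D : ℕ) : ℝ) / √ (2 * (2 * n : ℕ)) = D / √ n := by
    have : √ (2 * ((2 * n : ℕ) : ℝ)) = 2 * √ n := by
      have : (2 * ((2 * n : ℕ) : ℝ)) = 2 ^ 2 * n := by push_cast; ring
      rw [this, Real.sqrt_mul (by norm_num), Real.sqrt_sq (by norm_num)]
    rw [this]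
    push_cast
    field_simp
  rw [e2] at h2
  have h3 := hE.1 (D / √ n) (by positivity)
  have h4 : Real.exp (-((D : ℝ) / √ n) ^ 2) ≤ Real.exp (-c) := by
    apply Real.exp_le_exp.2
    rw [neg_le_neg_iff, div_pow, Real.sq_sqrt hn'.le, le_div_iff₀ hn', ← hDr]
    exact hc
  have h5 := abs_le.1 h2
  linarith [h5.1]

/-- the number -/
theorem ana {ρ η h x : ℝ} (hρ : 0 < ρ) (hη : 0 < η) (h0 : 0 < h) (h1 : h ≤ 1 / 2) (hx : 16 * (ρ + 1) / h ≤ x) :
    (2 * ρ - η) * x ^ 2 + 2 ≤ Real.exp (h * x ^ 2 - 4 * x - 4) := by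
  rw [div_le_iff₀ h0] at hx
  have hx1 : 1 ≤ x := by nlinarith
  have hhx : 16 ≤ h * x := by nlinarith
  have a1 : h / 2 * x ^ 2 ≤ h * x ^ 2 - 4 * x - 4 := by nlinarith
  have a2 : 0 ≤ h / 2 * x ^ 2 := by positivity
  have a3 : (h / 2 * x ^ 2) ^ 2 / 2 ≤ Real.exp (h / 2 * x ^ 2) := by
    have := Real.quadratic_le_exp_of_nonneg a2
    linarith
  have a4 : (2 * ρ + 2) * x ^ 2 ≤ (h / 2 * x ^ 2) ^ 2 / 2 := by
    have b1 : 16 * (ρ + 1) ≤ (x * h) ^ 2 := by nlinarith
    have b2 : (h / 2 * x ^ 2) ^ 2 / 2 = (x * h) ^ 2 * x ^ 2 / 8 := by ring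
    rw [b2]
    have b3 : 16 * (ρ + 1) * x ^ 2 ≤ (x * h) ^ 2 * x ^ 2 := mul_le_mul_of_nonneg_right b1 (by positivity)
    linarith
  have a5 : (2 * ρ - η) * x ^ 2 + 2 ≤ (2 * ρ + 2) * x ^ 2 := by
    have : 0 ≤ η * x ^ 2 := by positivity
    nlinarith
  exact a5.trans (a4.trans (a3.trans (Real.exp_le_exp.2 a1)))

theorem exp_two_ge : (6 : ℝ) ≤ Real.exp 2 := by
  have h := Real.exp_one_gt_d9
  have e : Real.exp 2 = Real.exp 1 * Real.exp 1 := by rw [← Real.exp_add]; norm_num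
  rw [e]
  nlinarith

theorem t_SUP (hE : S_ERF) : S_SUP := by
  intro ρ η hρ hη
  set h : ℝ := min (1 / 2) (η / (8 * ρ)) with hh
  have h0 : 0 < h := lt_min (by norm_num) (by positivity)
  have h1 : h ≤ 1 / 2 := min_le_left _ _
  have h2 : 2 * h * ρ ≤ η / 4 := by
    have := min_le_right (1 / 2) (η / (8 * ρ))
    rw [← hh, le_div_iff₀ (by positivity)] at this
    linarith
  set γ : ℝ := min (ρ / 2) (η / 8) with hγ
  have γ0 : 0 < γ := lt_min (by positivity) (by positivity)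
  have γ1 : γ ≤ ρ / 2 := min_le_left _ _
  have γ2 : γ ≤ η / 8 := min_le_right _ _
  set T : ℝ := max (16 * (ρ + 1) / h) (4 / η) with hT
  have hlim : Tendsto (fun k : ℕ => √ (Real.log k)) atTop atTop :=
    Real.tendsto_sqrt_atTop.comp (Real.tendsto_log_atTop.comp tendsto_natCast_atTop_atTop)
  obtain ⟨k₀, hk₀⟩ := eventually_atTop.1 ((hlim.eventually_ge_atTop T).and (eventually_ge_atTop 1))
  refine ⟨k₀, fun k hk => ?_⟩
  obtain ⟨hx, hk1⟩ := hk₀ k hk
  set x : ℝ := √ (Real.log k) with hxd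
  have hkr : (1 : ℝ) ≤ k := by exact_mod_cast hk1
  have hk0 : (0 : ℝ) < k := by linarith
  have hL : 0 ≤ Real.log k := Real.log_nonneg hkr
  have hx2 : x ^ 2 = Real.log k := Real.sq_sqrt hL
  have hx1 : 16 * (ρ + 1) / h ≤ x := (le_max_left _ _).trans hx
  have hx3 : 4 / η ≤ x := (le_max_right _ _).trans hx
  have hxge : 1 ≤ x := by
    rw [div_le_iff₀ h0] at hx1
    nlinarith
  have hx0 : 0 ≤ x := by linarith
  set R : ℝ := (k : ℝ) ^ (-(2 * ρ - η)) with hR
  have hRe : R = Real.exp (-((2 * ρ - η) * x ^ 2)) := by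
    rw [hR, Real.rpow_def_of_pos hk0, hx2]
    congr 1
    ring
  have hR0 : 0 < R := by rw [hRe]; exact Real.exp_pos _
  -- the position of the intervals
  set α : ℝ := √ ((1 - h) / 2) * x with hα
  have hα0 : 0 ≤ α := by positivity
  have hα2 : α ^ 2 = (1 - h) / 2 * x ^ 2 := by
    rw [hα, mul_pow, Real.sq_sqrt (by linarith)]
  have hα1 : α ≤ x := by
    rw [hα]
    have : √ ((1 - h) / 2) ≤ 1 := by
      rw [Real.sqrt_le_left zero_le_one]
      linarith
    nlinarith [Real.sqrt_nonneg ((1 - h) / 2)]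
  obtain ⟨s₁, hs₁⟩ := t_HIT α (α + 1) (by linarith)
  obtain ⟨s₂, hs₂⟩ := t_HIT (-(α + 1)) (-α) (by linarith)
  obtain ⟨q₀, hq₀⟩ := U_erf (ε := R / 3) (by positivity)
  obtain ⟨s₃, hs₃⟩ := exists_nat_gt ((ρ + γ) * (q₀ + 1))
  refine ⟨max (max s₁ s₂) s₃, γ, γ0, fun s n hs hsn => ?_⟩
  have hs1 := hs₁ s ((le_max_left _ _).trans ((le_max_left _ _).trans hs)) k
  have hs2 := hs₂ s ((le_max_right _ _).trans ((le_max_left _ _).trans hs)) k
  have hs3 : (s₃ : ℝ) ≤ s := by exact_mod_cast (le_max_right _ _).trans hs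
  have hsn' := abs_le.1 hsn
  have hnq : (q₀ : ℝ) + 1 < n := by
    have : (ρ + γ) * (q₀ + 1) < (ρ + γ) * n := by linarith [hsn'.2]
    exact lt_of_mul_lt_mul_left this (by positivity)
  have hn1 : 1 ≤ n := by
    have : (0 : ℝ) < n := by
      have : (0 : ℝ) ≤ q₀ := Nat.cast_nonneg _
      linarith
    exact_mod_cast this
  have hnq' : q₀ ≤ 2 * n := by
    have : (q₀ : ℝ) ≤ (n : ℝ) := by linarith
    have : q₀ ≤ n := by exact_mod_cast this
    omega
  have hn0 : (0 : ℝ) < n := by exact_mod_cast hn1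
  -- the probability that the intervals are missed
  have hM1 : max |α| |α + 1| = α + 1 := by
    rw [abs_of_nonneg hα0, abs_of_nonneg (by linarith), max_eq_right (by linarith)]
  have hM2 : max |(-(α + 1))| |(-α)| = α + 1 := by
    rw [abs_neg, abs_neg, abs_of_nonneg hα0, abs_of_nonneg (by linarith), max_eq_left (by linarith)]
  have hpr : Real.exp (-(k * (1 * Real.exp (-2 * (α + 1) ^ 2) / 4))) ≤ R / 6 := by
    have b1 : Real.exp (h * x ^ 2 - 4 * x - 4) ≤ k * (1 * Real.exp (-2 * (α + 1) ^ 2) / 4) := by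
      have c1 : (k : ℝ) = Real.exp (x ^ 2) := by rw [hx2, Real.exp_log hk0]
      have c2 : Real.exp (-2) ≤ 1 / 4 := by
        rw [Real.exp_neg, inv_eq_one_div]
        apply one_div_le_one_div_of_le (by norm_num)
        linarith [exp_two_ge]
      have c3 : Real.exp (h * x ^ 2 - 4 * x - 4) ≤ Real.exp (x ^ 2) * Real.exp (-2 * (α + 1) ^ 2) * Real.exp (-2) := by
        rw [← Real.exp_add, ← Real.exp_add]
        apply Real.exp_le_exp.2
        have : (α + 1) ^ 2 = α ^ 2 + 2 * α + 1 := by ring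
        rw [this, hα2]
        linarith
      have c4 : Real.exp (x ^ 2) * Real.exp (-2 * (α + 1) ^ 2) * Real.exp (-2) ≤
          Real.exp (x ^ 2) * Real.exp (-2 * (α + 1) ^ 2) * (1 / 4) :=
        mul_le_mul_of_nonneg_left c2 (by positivity)
      rw [c1] at *
      linarith
    have b2 := ana hρ hη h0 h1 hx1
    have b3 : Real.exp (-(k * (1 * Real.exp (-2 * (α + 1) ^ 2) / 4))) ≤ Real.exp (-((2 * ρ - η) * x ^ 2 + 2)) :=
      Real.exp_le_exp.2 (by linarith)
    refine b3.trans ?_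
    rw [neg_add, Real.exp_add, ← hRe]
    have c2 : Real.exp (-2) ≤ 1 / 6 := by
      rw [Real.exp_neg, inv_eq_one_div]
      exact one_div_le_one_div_of_le (by norm_num) exp_two_ge
    have := mul_le_mul_of_nonneg_left c2 hR0.le
    linarith
  rw [hM1] at hs1
  rw [hM2] at hs2
  have e1 : α + 1 - α = 1 := by ring
  have e2 : -α - -(α + 1) = 1 := by ring
  rw [e1] at hs1
  rw [e2] at hs2
  -- the two walkers
  have hfar : Real.exp (-(2 * (1 - h) * x ^ 2 * (ρ - γ))) ≤ R / 3 := by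
    have b1 : Real.exp (-(2 * (1 - h) * x ^ 2 * (ρ - γ))) ≤ Real.exp (-((2 * ρ - η) * x ^ 2) + -2) := by
      apply Real.exp_le_exp.2
      have c1 : 2 * ρ - η / 2 ≤ 2 * (1 - h) * (ρ - γ) := by nlinarith
      have c2 : (2 * ρ - η / 2) * x ^ 2 ≤ 2 * (1 - h) * (ρ - γ) * x ^ 2 := mul_le_mul_of_nonneg_right c1 (by positivity)
      have c3 : 4 ≤ η * x ^ 2 := by
        rw [div_le_iff₀ hη] at hx3
        nlinarith
      nlinarith
    refine b1.trans ?_
    rw [Real.exp_add, ← hRe]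
    have c2 : Real.exp (-2) ≤ 1 / 6 := by
      rw [Real.exp_neg, inv_eq_one_div]
      exact one_div_le_one_div_of_le (by norm_num) exp_two_ge
    have := mul_le_mul_of_nonneg_left c2 hR0.le
    linarith
  set Q1 : ℤ → Prop := fun w => (s : ℝ) / 2 + α * √ s ≤ w ∧ (w : ℝ) < s / 2 + (α + 1) * √ s with hQ1
  set Q2 : ℤ → Prop := fun w => (s : ℝ) / 2 + -(α + 1) * √ s ≤ w ∧ (w : ℝ) < s / 2 + -α * √ s with hQ2
  have hpt : ∀ z : Fin (k + 1) → ℤ, cw (fun y : Fin (k + 1) → ℤ => id1 (Same y)) n z ≤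
      id1 (∀ i : Fin k, ¬ Q1 (z i.succ)) + id1 (∀ i : Fin k, ¬ Q2 (z i.succ)) + (R / 3 + R / 3) := by
    intro z
    have hid : ∀ P : Prop, 0 ≤ id1 P := fun P => by unfold id1; split_ifs <;> norm_num
    have hid1 : ∀ P : Prop, id1 P ≤ 1 := fun P => by unfold id1; split_ifs <;> norm_num
    have hc1 := (cw_mem (G := fun y : Fin (k + 1) → ℤ => id1 (Same y)) (fun y => hid _) (fun y => hid1 _) n z).2
    by_cases hA : ∀ i : Fin k, ¬ Q1 (z i.succ)
    · rw [id1_true hA]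
      linarith [hid (∀ i : Fin k, ¬ Q2 (z i.succ))]
    by_cases hB : ∀ i : Fin k, ¬ Q2 (z i.succ)
    · rw [id1_true hB]
      linarith [hid (∀ i : Fin k, ¬ Q1 (z i.succ))]
    rw [id1_false hA, id1_false hB]
    push Not at hA hB
    obtain ⟨i, hi⟩ := hA
    obtain ⟨j, hj⟩ := hB
    have d1 : α * √ s + α * √ s ≤ (z i.succ : ℝ) - z j.succ := by
      have := hi.1
      have := hj.2
      linarith
    have d0 : 0 ≤ α * √ s := by positivity
    have hle : z j.succ ≤ z i.succ := by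
      have : (z j.succ : ℝ) ≤ z i.succ := by linarith
      exact_mod_cast this
    have hss : √ (s : ℝ) ^ 2 = s := Real.sq_sqrt (by positivity)
    have hc : (2 * (1 - h) * x ^ 2 * (ρ - γ)) * n ≤ ((z i.succ : ℝ) - z j.succ) ^ 2 := by
      have f1 : (α * √ s + α * √ s) ^ 2 ≤ ((z i.succ : ℝ) - z j.succ) ^ 2 := pow_le_pow_left₀ (by linarith) d1 2
      refine le_trans ?_ f1
      have f2 : (α * √ s + α * √ s) ^ 2 = 2 * (1 - h) * x ^ 2 * s := by
        have : (α * √ s + α * √ s) ^ 2 = 4 * α ^ 2 * √ (s : ℝ) ^ 2 := by ring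
        rw [this, hss, hα2]
        ring
      rw [f2]
      have f3 : (ρ - γ) * n ≤ s := by linarith [hsn'.1]
      have f4 : 0 ≤ 2 * (1 - h) * x ^ 2 := by
        have : 0 ≤ 1 - h := by linarith
        positivity
      calc 2 * (1 - h) * x ^ 2 * (ρ - γ) * n = 2 * (1 - h) * x ^ 2 * ((ρ - γ) * n) := by ring
        _ ≤ _ := mul_le_mul_of_nonneg_left f3 f4
    have hfin := two_far hE (K := k + 1) (δ := R / 3) hn1 (fun d => hq₀ (2 * n) hnq' d) z j.succ i.succ hle hc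
      (fun y => id1 (Same y)) (fun y => by
        by_cases hS : Same y
        · rw [id1_true hS, id1_true (hS j i)]
        · rw [id1_false hS]; exact hid _)
    linarith
  have hmain := iw_mono hpt s (fun _ => 0)
  refine hmain.trans ?_
  rw [iw_add', iw_add', iw_const]
  have g1 := iw_proj (fun z : Fin k → ℤ => id1 (∀ i, ¬ Q1 (z i))) s (fun _ => 0)
  have g2 := iw_proj (fun z : Fin k → ℤ => id1 (∀ i, ¬ Q2 (z i))) s (fun _ => 0)
  have g1' : iw (fun z : Fin (k + 1) → ℤ => id1 (∀ i : Fin k, ¬ Q1 (z i.succ))) s (fun _ => 0) ≤ R / 6 := by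
    rw [g1]; exact hs1.trans hpr
  have g2' : iw (fun z : Fin (k + 1) → ℤ => id1 (∀ i : Fin k, ¬ Q2 (z i.succ))) s (fun _ => 0) ≤ R / 6 := by
    rw [g2]; exact hs2.trans hpr
  linarith

end Pool.Agent.J4H45.SM
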